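import Pool.Agent.Lib_helper55.MetaFibProof

/-!
# The parity index sequences of a meta-Fibonacci sequence are 2-regular (MP_f90694_nt)

The definitions are in `Pool.Agent.Lib_helper55.MetaFibDefs`, the proof in
`Pool.Agent.Lib_helper55.MetaFibProof`.
-/

namespace Pool.Agent.Results.MP_f90694_nt.TwoRegular

open Pool.Agent.Lib_helper55.MetaFib

/-- **Both parity index sequences `u_0`, `u_1` of the meta-Fibonacci sequence `h` are
2-regular.** (`h` exists and is unique, and both index sets are infinite.) -/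
theorem result :
    (∃! h : ℤ → ℤ, IsMetaFib h) ∧
    ∀ h : ℤ → ℤ, IsMetaFib h → ∀ i : ℤ, i = 0 ∨ i = 1 →
      (parityIndexSet h i).Infinite ∧ IsRegularSeq 2 (u h i) := by
  refine ⟨⟨hfun, isMetaFib_hfun, fun h hh => isMetaFib_unique hh⟩, ?_⟩
  intro h hh i hi
  rw [isMetaFib_unique hh]
  have hi' : i ∈ ([0, 1] : List ℤ) := by simpa using hi
  exact ⟨infinite_parityIndexSet i hi', isRegularSeq_u i hi'⟩

end Pool.Agent.Results.MP_f90694_nt.TwoRegular
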